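import Pool.Agent.Helper65.KG.Goals

/-!
# KG, packet NM5
-/

namespace Pool.Agent.Helper40.KG.NM5

open Pool.Agent.Helper65.KG Pool.Agent.Helper70.KN

theorem t : S_NM5 := by
  refine ⟨1.49, 0.5613, by norm_num, ?_, by unfold th; norm_num, by norm_num⟩
  obtain ⟨h0, h1, h2⟩ := pKP 5 (by norm_num)
  intro σ hσ
  rcases eq_or_lt_of_le hσ with rfl | hσ
  · rw [h0]; norm_num
  rcases le_total σ 2 with h | h
  · rw [h1 σ hσ h, le_div_iff₀ hσ]
    have h3 : ∃ y, σ = 2 * (1 - y) := ⟨1 - σ / 2, by ring⟩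
    obtain ⟨y, rfl⟩ := h3
    have hy0 : 0 ≤ y := by linarith
    have hy1 : y ≤ 1 := by linarith
    have e1 : 1 - (2 * (1 - y)) / 2 = y := by ring
    rw [e1]
    have hp : 0 ≤ 0.1326 - 0.6226 * y + 0.5 * (y ^ 2 + y ^ 3 + y ^ 4) := by
      nlinarith [mul_nonneg hy0 (sq_nonneg (y - 0.37)), sq_nonneg (y ^ 2 - 0.1369),
        sq_nonneg (y - 0.37), sq_nonneg y]
    have hq : 0 ≤ (1 - y) * (0.1326 - 0.6226 * y + 0.5 * (y ^ 2 + y ^ 3 + y ^ 4)) :=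
      mul_nonneg (by linarith) hp
    nlinarith [hq]
  · rw [h2 σ h, le_div_iff₀ (by linarith)]
    nlinarith [mul_nonneg (sub_nonneg.mpr h) (sub_nonneg.mpr h)]

end Pool.Agent.Helper40.KG.NM5
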